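import Pool.Agent.Helper11.M3.GoalsA
import Pool.Agent.Helper11.M3.BLG
import Pool.Agent.Helper11.R.BLU2
import Pool.Agent.Helper77.PPS.Asm

/-!
# M3-A_BL1: the field `bl₁` of `Hyp₄`
-/

set_option autoImplicit false

namespace Pool.Agent.Helper3.M3

open NumberField Polynomial Module IsDedekindDomain
open Pool.Agent.Helper51.RP Pool.Agent.Helper42.RD Pool.Agent.Helper42.PP Pool.Agent.Helper42.PP1
open Pool.Agent.Helper42.PB Pool.Agent.Helper11.PP Pool.Agent.Helper76.PP Pool.Agent.Helper76.PB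
open Pool.Agent.Helper17.PP (Sys)
open Pool.Agent.Helper51.PP (Chs)
open Pool.Agent.Helper77.PPS (mono_bound fib_bound a1_unb)
open Pool.Agent.Helper11.M3

/-- The nontriviality at a prime with `y q ≠ 0`, `c q ε ≠ t q`. -/
theorem bl1_nt {p : ℕ} [Fact p.Prime] {P : (ZMod p)[X]} [Fact (Irreducible P)]
    (tr : AdjoinRoot P →ₗ[ZMod p] ZMod p) (n1 : ∀ z : AdjoinRoot P, tr z = 0 → z = 0)
    (y t c : AdjoinRoot P) (e l : (ZMod p)ˣ) (hy : y ≠ 0)
    (h : c * algebraMap (ZMod p) (AdjoinRoot P) (e : ZMod p) ≠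
      t * algebraMap (ZMod p) (AdjoinRoot P) (l : ZMod p)) :
    tr (y * t) + -((e : ZMod p) * (l : ZMod p)⁻¹ * tr (y * c)) ≠ 0 := by
  intro h0
  have hl : (l : ZMod p) ≠ 0 := l.ne_zero
  have h1 : tr (y * (t * algebraMap (ZMod p) (AdjoinRoot P) (l : ZMod p) -
      c * algebraMap (ZMod p) (AdjoinRoot P) (e : ZMod p))) = 0 := by
    have h2 : y * (t * algebraMap (ZMod p) (AdjoinRoot P) (l : ZMod p) -
      c * algebraMap (ZMod p) (AdjoinRoot P) (e : ZMod p)) =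
        (l : ZMod p) • (y * t) - (e : ZMod p) • (y * c) := by
      rw [Algebra.smul_def, Algebra.smul_def]
      ring
    rw [h2, map_sub, map_smul, map_smul, smul_eq_mul, smul_eq_mul]
    have h3 : (l : ZMod p) * (tr (y * t) + -((e : ZMod p) * (l : ZMod p)⁻¹ * tr (y * c))) =
        (l : ZMod p) * tr (y * t) - (e : ZMod p) * tr (y * c) := by
      field_simp
      ring
    rw [← h3, h0, mul_zero]
  rcases mul_eq_zero.1 (n1 _ h1) with h2 | h2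
  · exact hy h2
  · exact h (sub_eq_zero.1 h2).symm

open Classical in
theorem a_bl1 (hBLG : A_BLG) (hNZO : A_NZO) : A_BL1 := by
  intro p _ K M K₁ M₁ _ _ _ _ _ _ _ _ _ _ _ _ _ _ ε δ P _ _ hs hO B hN n E V s0 aτ hV tr ψ₁ htr
    hψ₁ Ka hKa
  obtain ⟨n1, -, n3, -⟩ := hNZO p K M K₁ M₁ ε δ P hs hO tr htr
  obtain ⟨X2, hC2, hV2⟩ := hBLG p K M K₁ M₁ ε δ P hs B hN n E V s0 aτ hV tr ψ₁ hψ₁
  have hA : (1 : ℝ) ≤ (Fintype.card (AdjoinRoot P) : ℝ) := by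
    exact_mod_cast Fintype.card_pos
  obtain ⟨Kb, hKb1, hKb⟩ := blD (sysB B E V s0 aτ) M₁ (a1_unb M₁) Ka (Fintype.card (ZMod p)ˣ)
    (Fintype.card (AdjoinRoot P) : ℝ) hA hKa
    (fun b₀ ↦ fib_bound B b₀) (ZMod p)ˣ (fun q ↦ q.1.2) (modu p M₁ B.S) (finrank K M₁)
  refine ⟨Kb, hKb1, fun K' hK' => ?_⟩
  intro i j t ε₁ y c α β X hj ht hX hα hβ hD
  by_cases hq₀ : ∃ q₀ : B.LP, q₀.1.1 ∈ V ∧ eL B q₀ = ε₁
  · obtain ⟨q₀, -, hq₀⟩ := hq₀
    obtain ⟨e₀, he₀⟩ : ∃ e₀ : (ZMod p)ˣ, e₀ = q₀.1.2 := ⟨_, rfl⟩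
    have he : ε₁ = algebraMap (ZMod p) (AdjoinRoot P) (e₀ : ZMod p) := by
      rw [he₀, ← hq₀]
      rfl
    have hlab : ∀ q : B.LP, eL B q = ε₁ → q.1.2 = e₀ := by
      intro q hq
      rw [he] at hq
      have h1 : algebraMap (ZMod p) (AdjoinRoot P) ((q.1.2 : (ZMod p)ˣ) : ZMod p) =
        algebraMap (ZMod p) (AdjoinRoot P) (e₀ : ZMod p) := hq
      exact Units.ext ((algebraMap (ZMod p) (AdjoinRoot P)).injective h1)
    have h1 := hKb (fun q ↦ q.1.1.asIdeal.map (algebraMap (𝓞 K) (𝓞 M₁))) (fun q ↦ B.W q.1.1)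
      {q | q.1.1 ∈ V ∧ eL B q = ε₁} {q | q.1.1 ∈ V ∧ y q ≠ 0 ∧ c q * ε₁ ≠ t * eL B q}
      (fun q _ ↦ X2 q (c q) (y q) t 0 e₀)
      (fun q q₁ ↦ psK tr ψ₁ (y q * (t * (sysB B E V s0 aτ).a q q₁ +
        c q * algebraMap (ZMod p) (AdjoinRoot P) ((sysB B E V s0 aτ).kap q q₁))))
      (fun e ↦ hC2 c y (fun _ ↦ t) (fun _ ↦ 0) e₀ _ _
        (fun q hq ↦ ⟨hq.1.1, hlab q hq.1.2⟩) (fun q hq ↦ hq.1) (fun q hq ↦ by
          have h2 := n3 (y q * t) (-((e₀ : ZMod p) * (q.1.2 : ZMod p)⁻¹ * tr (y q * c q)))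
            (bl1_nt tr n1 (y q) t (c q) e₀ q.1.2 hq.2.1 (by
              have h3 := hq.2.2
              rw [he] at h3
              exact h3))
          rw [mul_zero, zero_mul, map_zero, mul_zero, neg_zero]
          exact h2))
      (fun q hq q₁ hq₁ hne ↦ by
        have h2 := hV2 (c q) (y q) t 0 q q₁ hq.1 hq₁.1 hne
        rw [hlab q₁ hq₁.2] at h2
        rw [h2, zero_mul, add_zero]) i j α β X hj hX hα hβ
      (fun D h ↦ ⟨(hD D h).1, fun q hq ↦ by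
        obtain ⟨a1, a2, a3, a4⟩ := (hD D h).2 q hq
        exact ⟨⟨a1, a3, a4⟩, Or.inl a2⟩⟩)
    refine le_trans (le_of_eq ?_) (h1.trans ?_)
    · congr 1
      refine Finset.sum_congr ?_ fun q _ ↦ Finset.sum_congr rfl fun D _ ↦ rfl
      ext q
      simp only [Finset.mem_filter]
      exact Iff.rfl
    · have hm := mono_bound Kb K' i j (min i j) (Real.exp (-((2 : ℝ) ^ (i + j) / (2 * X))))
        ((i : ℝ) + 1) hKb1 hK' (Real.exp_pos _).le
        (by linarith [Nat.cast_nonneg (α := ℝ) i])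
      rw [Nat.cast_min] at hm
      exact hm
  · have h0 : (((sysB B E V s0 aτ).blk j).filter fun q ↦ (sysB B E V s0 aτ).spl q ∧
        eL B q = ε₁) = ∅ := by
      rw [Finset.filter_eq_empty_iff]
      intro q _ h
      exact hq₀ ⟨q, h.1, h.2⟩
    rw [h0, Finset.sum_empty, norm_zero]
    positivity

end Pool.Agent.Helper3.M3
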