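import Pool.Agent.Helper11.M3.Goals4
import Pool.Agent.Helper83.PP.CLAB

/-!
# Project M3: the main part of the expansion (`Q_MN`)
-/

namespace Pool.Agent.Helper3.M3

open Finset Pool.Agent.Helper17.PP Pool.Agent.Helper17.PP0 Pool.Agent.Helper17.PP2
  Pool.Agent.Helper11.M3

variable {p : ℕ} {B B₀ k U Λ C : Type} [Field k] [AddCommGroup U] [Module k U]
    [AddCommGroup Λ] [Module k Λ] [AddCommGroup C]

theorem card_sp (S : Sys p B B₀ k U Λ C) (b : Finset B) (q P₁ : B) (hW : Wv S b q) :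
    (sp S b q P₁).card = (rs₄ S b q P₁).card + (ra₄ S b q P₁).card := by
  classical
  have hu : sp S b q P₁ = rs₄ S b q P₁ ∪ ra₄ S b q P₁ := by
    ext q'
    simp only [sp, rs₄, ra₄, mem_union, mem_filter, mem_erase]
    constructor
    · rintro ⟨⟨h0, h1, h2⟩, h3⟩
      rcases lt_or_gt_of_ne (hW.uniq q' h2 h1 h3) with h | h
      · exact Or.inl ⟨⟨h0, h1, h2⟩, h3, h⟩
      · exact Or.inr ⟨⟨h0, h1, h2⟩, h3, h⟩
    · rintro (⟨h1, h2, _⟩ | ⟨h1, h2, _⟩)
      · exact ⟨h1, h2⟩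
      · exact ⟨h1, h2⟩
  rw [hu, card_union_of_disjoint]
  rw [disjoint_left]
  intro q' h1 h2
  simp only [rs₄, ra₄, mem_filter] at h1 h2
  omega

theorem sp_subset (S : Sys p B B₀ k U Λ C) (b : Finset B) (q P₁ : B) :
    sp S b q P₁ ⊆ b := by
  classical
  intro q' h
  simp only [sp, mem_filter, mem_erase] at h
  exact h.1.2.2

theorem q_mn : Pool.Agent.Helper11.M3.Q_MN := by
  classical
  intro p B B₀ k U Λ C _ _ _ _ _ _ _ _ _ _ S ψ P b q P₁ t hbP hW hP₁ hne
  obtain ⟨h1, -, -, h4, -⟩ := Pool.Agent.Helper83.PP.c_lab B k P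
  have hsp : sp S b q P₁ ⊆ P := (sp_subset S b q P₁).trans hbP
  have h4' := h4 (fun _ ↦ (1 : ℂ)) (sp S b q P₁) hsp (fun _ _ _ _ ↦ rfl)
  set Q : ℂ := (Fintype.card k : ℂ) with hQ
  have hQ0 : Q ≠ 0 := by
    rw [hQ]
    exact_mod_cast Fintype.card_ne_zero
  set L : ℂ := ((lab k P).card : ℂ) with hL
  have hL0 : L ≠ 0 := by
    rw [hL, h1]
    push_cast
    exact pow_ne_zero _ hQ0
  have hΛ0 : (Fintype.card Λ : ℂ) ≠ 0 := by exact_mod_cast Fintype.card_ne_zero
  have hcard := card_sp S b q P₁ hW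
  -- the number of `y`
  have hy : ∑ y ∈ lab k P with (∀ q' ∈ sp S b q P₁, y q' = 0), (1 : ℂ) =
      L / Q ^ (sp S b q P₁).card := by
    rw [eq_div_iff (pow_ne_zero _ hQ0), mul_comm]
    refine Eq.trans ?_ (h4'.trans ?_)
    · rfl
    · simp [hL]
  have hterm : ∀ (x : U) (c y : B → k), (∀ q' ∈ sp S b q P₁, y q' = 0) →
      ph S ψ (1 : AddChar Λ ℂ) b x (cutd S (S.bl q) q P₁ t c)
        (cute S (S.bl q) q P₁ 0 0 y) = 1 := by
    intro x c y hy0
    unfold ph
    rw [AddChar.one_apply, one_mul]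
    apply Finset.prod_eq_one
    intro q' hq'
    have h0 : cute S (S.bl q) q P₁ 0 0 y q' = 0 := by
      unfold cute
      by_cases e1 : q' = q
      · simp [e1]
      by_cases e2 : q' = P₁
      · simp [e2]
      by_cases e3 : S.spl q' ∧ S.bl q' ≠ S.bl q
      · rw [if_neg e1, if_neg e2, if_pos e3]
        apply hy0
        simp only [sp, mem_filter, mem_erase]
        exact ⟨⟨e2, e1, hq'⟩, e3.1⟩
      · rw [if_neg e1, if_neg e2, if_neg e3]
    rw [h0, zero_mul, AddChar.map_zero_eq_one]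
  unfold ful₄
  have key : ∑ x : U, ∑ χ : AddChar Λ ℂ, ∑ c ∈ lab k P,
      ∑ y ∈ lab k P with FM S b q P₁ χ c y,
        ph S ψ χ b x (cutd S (S.bl q) q P₁ t c) (cute S (S.bl q) q P₁ 0 0 y) =
      (Fintype.card U : ℂ) * (L * (L / Q ^ (sp S b q P₁).card)) := by
    have hx : ∀ x : U, ∑ χ : AddChar Λ ℂ, ∑ c ∈ lab k P,
      ∑ y ∈ lab k P with FM S b q P₁ χ c y,
        ph S ψ χ b x (cutd S (S.bl q) q P₁ t c) (cute S (S.bl q) q P₁ 0 0 y) =
        L * (L / Q ^ (sp S b q P₁).card) := by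
      intro x
      rw [Finset.sum_eq_single (1 : AddChar Λ ℂ)]
      · have hc : ∀ c ∈ lab k P, ∑ y ∈ lab k P with FM S b q P₁ (1 : AddChar Λ ℂ) c y,
            ph S ψ (1 : AddChar Λ ℂ) b x (cutd S (S.bl q) q P₁ t c)
              (cute S (S.bl q) q P₁ 0 0 y) = L / Q ^ (sp S b q P₁).card := by
          intro c _
          rw [← hy]
          have e1 : ((lab k P).filter fun y ↦ FM S b q P₁ (1 : AddChar Λ ℂ) c y) =
              ((lab k P).filter fun y ↦ (∀ q' ∈ sp S b q P₁, y q' = 0)) := by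
            apply filter_congr
            intro y _
            simp [FM]
          rw [e1]
          apply sum_congr rfl
          intro y hy1
          exact hterm x c y (mem_filter.1 hy1).2
        rw [sum_congr rfl hc, sum_const, nsmul_eq_mul]
      · intro χ _ hχ
        apply sum_eq_zero
        intro c _
        apply sum_eq_zero
        intro y hy1
        exact absurd (mem_filter.1 hy1).2.1 hχ
      · intro h
        exact absurd (mem_univ _) h
    rw [sum_congr rfl fun x _ ↦ hx x, sum_const, card_univ, nsmul_eq_mul]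
  rw [key, hcard, pow_add]
  have h2 : (1 / Q) ^ (ra₄ S b q P₁).card = 1 / Q ^ (ra₄ S b q P₁).card := by
    rw [div_pow, one_pow]
  rw [h2, ← hL, ← hQ]
  field_simp

end Pool.Agent.Helper3.M3
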